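import Pool.Agent.FS.Access034.Main

/-! Cases of the access point criterion. -/

namespace Pool.Agent.FS.Access034

open Set Filter Topology Metric Pool.Agent.Lib.MP_034e58_gt.Th

variable {n : ℕ} {M : Type} [TopologicalSpace M] {U : Set M}

theorem acc_nonempty (hM : IsMfd n M) (hne : U.Nonempty) {d : M} (hd : d ∉ closure U) :
    (frontier (connectedComponentIn (closure U)ᶜ d)).Nonempty := by
  have := hM.2.1
  refine nonempty_frontier_iff.2 ⟨⟨d, mem_connectedComponentIn (F := (closure U)ᶜ) hd⟩,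
    fun hu => ?_⟩
  obtain ⟨g, hg⟩ := hne
  exact disjoint_left.1 (acc_disj d) (hu ▸ mem_univ g) hg

/-- the exterior has finitely many components -/
theorem cor_finite (hM : IsMfd n M) (hU : IsOpen U) (hne : U.Nonempty)
    (h : ((connectedComponentIn (closure U)ᶜ) '' (closure U)ᶜ).Finite) : DenseCopy U := by
  have : Nonempty M := ⟨hne.some⟩
  have h1 : ∀ C ∈ (connectedComponentIn (closure U)ᶜ) '' (closure U)ᶜ, ∃ p, p ∈ frontier C := by
    rintro _ ⟨d, hd, rfl⟩
    exact acc_nonempty hM hne hd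
  choose! p hp using h1
  exact acc_main hM hU hne (p '' ((connectedComponentIn (closure U)ᶜ) '' (closure U)ᶜ))
    (fun d hd => ⟨_, ⟨_, ⟨d, hd, rfl⟩, rfl⟩, hp _ ⟨d, hd, rfl⟩⟩)
    dominated_nat (fun _ => univ) (fun _ => isOpen_univ) (fun x _ => mem_iUnion.2 ⟨0, trivial⟩)
    fun _ => (h.image p).subset inter_subset_right

/-- few open sets whose closures lie in `U` cover `U` -/
theorem cor_closure (hM : IsMfd n M) (hU : IsOpen U) (hne : U.Nonempty) {ι : Type}
    (hι : Dominated ι) (O : ι → Set M) (hO : ∀ i, IsOpen (O i) ∧ closure (O i) ⊆ U)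
    (hc : U ⊆ ⋃ i, O i) : DenseCopy U :=
  acc_main hM hU hne Uᶜ (fun _ hd => (acc_nonempty hM hne hd).imp fun _ hp =>
    ⟨(acc_front hM hU hd hp).2, hp⟩) hι O (fun i => (hO i).1) hc fun i =>
      finite_empty.subset fun _ hz => hz.2 ((hO i).2 hz.1)

/-- cozero sets -/
theorem cor_cozero (hM : IsMfd n M) (f : C(M, ℝ)) (hne : {x | f x ≠ 0}.Nonempty) :
    DenseCopy {x | f x ≠ 0} := by
  refine cor_closure hM (isOpen_ne_fun f.continuous continuous_const) hne dominated_nat
    (fun m => {x | 1 / ((m : ℝ) + 1) < |f x|}) (fun m =>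
      ⟨isOpen_lt continuous_const f.continuous.abs, fun x hx h0 => ?_⟩) fun x hx => ?_
  · have h1 := closure_lt_subset_le continuous_const f.continuous.abs hx
    rw [mem_ofPred_eq, h0, abs_zero] at h1
    exact absurd h1 (not_le.2 (by positivity))
  · exact mem_iUnion.2 (exists_nat_one_div_lt (abs_pos.2 hx))

/-- perfectly normal manifolds -/
theorem cor_normal (hM : IsMfd n M) [NormalSpace M] (hU : IsOpen U) (hne : U.Nonempty)
    (h : IsGδ Uᶜ) : DenseCopy U := by
  obtain ⟨u, h1, h2⟩ := (disjoint_compl_right (a := U)).hasSeparatingCover_closed_gdelta_right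
    hU.isClosed_compl h
  exact cor_closure hM hU hne dominated_nat u
    (fun m => ⟨(h2 m).1, disjoint_compl_right_iff_subset.1 (h2 m).2⟩) h1

theorem cor_perfect (hM : IsMfd n M) [PerfectlyNormalSpace M] (hU : IsOpen U)
    (hne : U.Nonempty) : DenseCopy U :=
  cor_normal hM hU hne hU.isClosed_compl.isGδ

theorem acc_countable {ι : Type} [Countable ι] : Dominated ι := fun F => by
  obtain ⟨f, hf⟩ := exists_injective_nat ι
  obtain ⟨g, hg⟩ := dominated_nat (Function.extend f F 0)
  exact ⟨g, fun i => by simpa only [hf.extend_apply] using hg (f i)⟩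

/-- compact frontier, for instance compact complement -/
theorem cor_compact (hM : IsMfd n M) (hU : IsOpen U) (hne : U.Nonempty)
    (h : IsCompact (frontier U)) : DenseCopy U := by
  have := hM.1
  choose e q he hq using hM.exists_emb
  have hN : ∀ x, e x '' closedBall (q x) 1 ∈ 𝓝 x := fun x => by
    have := (he x).image_mem_nhds.2 (closedBall_mem_nhds (q x) one_pos)
    rwa [hq] at this
  have hK : ∀ x y r, IsCompact (e x '' closedBall y r) := fun x y r =>
    (isCompact_closedBall y r).image (he x).continuous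
  obtain ⟨t, -, ht⟩ := h.elim_nhds_subcover _ fun x _ => interior_mem_nhds.2 (hN x)
  choose S hS hS' using fun x => TopologicalSpace.isOpen_iUnion_countable
    (fun j : {j : Eu n × ℝ // closedBall j.1 j.2 ⊆ e x ⁻¹' U} => ball j.1.1 j.1.2)
    fun _ => isOpen_ball
  have : ∀ x, Countable (S x) := fun x => (hS x).to_subtype
  have hL : IsClosed (⋃ x ∈ t, e x '' closedBall (q x) 1) :=
    (t.isCompact_biUnion fun x _ => hK x _ _).isClosed
  refine cor_closure hM hU hne (ι := Option (Σ x : t, S x)) acc_countable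
    (fun o => o.elim (U \ ⋃ x ∈ t, e x '' closedBall (q x) 1)
      fun j => e j.1 '' ball j.2.1.1.1 j.2.1.1.2) ?_ fun y hy => ?_
  · rintro (_ | ⟨x, j⟩)
    · refine ⟨hU.sdiff hL, fun z hz => ?_⟩
      by_contra hzU
      have h1 : z ∈ frontier U := by
        rw [hU.frontier_eq]
        exact ⟨closure_mono sdiff_subset hz, hzU⟩
      obtain ⟨x, hx, h2⟩ := mem_iUnion₂.1 (ht h1)
      obtain ⟨w, h3, h4⟩ := mem_closure_iff.1 hz _ isOpen_interior h2
      exact h4.2 (mem_iUnion₂.2 ⟨x, hx, interior_subset h3⟩)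
    · refine ⟨(he x).isOpenMap _ isOpen_ball, ?_⟩
      exact (closure_minimal (image_mono ball_subset_closedBall) (hK _ _ _).isClosed).trans
        (image_subset_iff.2 j.1.2)
  · by_cases h1 : y ∈ ⋃ x ∈ t, e x '' closedBall (q x) 1
    · obtain ⟨x, hx, z, -, rfl⟩ := mem_iUnion₂.1 h1
      obtain ⟨r, hr, hb⟩ := nhds_basis_closedBall.mem_iff.1
        ((hU.preimage (he x).continuous).mem_nhds hy)
      have h2 : z ∈ ⋃ j ∈ S x, ball j.1.1 j.1.2 := by
        rw [hS' x]
        exact mem_iUnion.2 ⟨⟨(z, r), hb⟩, mem_ball_self hr⟩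
      obtain ⟨j, hj, h3⟩ := mem_iUnion₂.1 h2
      exact mem_iUnion.2 ⟨some ⟨⟨x, hx⟩, j, hj⟩, z, h3, rfl⟩
    · exact mem_iUnion.2 ⟨none, hy, h1⟩

end Pool.Agent.FS.Access034
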