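import Pool.Agent.Lib.MP_034e58_gt.Th.Pos

/-! Dense copies from a sparse set of access points to the exterior. -/

namespace Pool.Agent.FS.Access034

open Set Filter Topology Metric Pool.Agent.Lib.MP_034e58_gt.Th

variable {n : ℕ} {M : Type} [TopologicalSpace M] {U : Set M}

theorem acc_basis (hM : IsMfd n M) :
    ∃ B : M → ℕ → Set M, ∀ p, (𝓝 p).HasAntitoneBasis (B p) := by
  have h : ∀ p : M, ∃ B : ℕ → Set M, (𝓝 p).HasAntitoneBasis B := fun p => by
    obtain ⟨e, q, he, rfl⟩ := hM.exists_emb p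
    rw [← he.map_nhds_eq]
    exact Filter.exists_antitone_basis _
  choose B hB using h
  exact ⟨B, hB⟩

theorem acc_disj (d : M) : Disjoint (connectedComponentIn (closure U)ᶜ d) U :=
  disjoint_left.2 fun _ hz hz' => connectedComponentIn_subset _ d hz (subset_closure hz')

theorem acc_front (hM : IsMfd n M) (hU : IsOpen U) {d p : M} (hd : d ∉ closure U)
    (hp : p ∈ frontier (connectedComponentIn (closure U)ᶜ d)) : p ∈ closure U ∧ p ∉ U := by
  have := hM.locConn
  have ho : IsOpen (closure U)ᶜ := isClosed_closure.isOpen_compl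
  have hs := connectedComponentIn_subset (closure U)ᶜ d
  have hmem := mem_connectedComponentIn (F := (closure U)ᶜ) hd
  rw [ho.connectedComponentIn.frontier_eq] at hp
  refine ⟨?_, fun hpU => disjoint_left.1 ((acc_disj d).closure_left hU) hp.1 hpU⟩
  by_contra hc
  exact hp.2 ((isPreconnected_connectedComponentIn.subset_closure
    (t := insert p (connectedComponentIn (closure U)ᶜ d)) (subset_insert _ _)
    (insert_subset hp.1 subset_closure)).subset_connectedComponentIn (Or.inr hmem)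
    (insert_subset hc hs) (mem_insert _ _))

/-- A finger from `U` to `d` through the access point `p`. -/
theorem acc_push (hM : IsMfd n M) (hU : IsOpen U) {d p : M} (hd : d ∉ closure U)
    (hp : p ∈ frontier (connectedComponentIn (closure U)ᶜ d)) {O : Set M} (hO : O ∈ 𝓝 p) :
    ∃ h : M ≃ₜ M, (∃ g ∈ U, h g = d) ∧ ∀ z ∈ U, z ∉ O → h z = z := by
  have := hM.locConn
  have ho : IsOpen (closure U)ᶜ := isClosed_closure.isOpen_compl
  obtain ⟨W, hWO, hWo, hpW, hWc⟩ :=
    locallyConnectedSpace_iff_subsets_isOpen_isConnected.1 this p O hO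
  obtain ⟨g, hg1, hg2⟩ := mem_closure_iff.1 (acc_front hM hU hd hp).1 _ hWo hpW
  obtain ⟨w, hw1, hw2⟩ := mem_closure_iff.1 (frontier_subset_closure hp) _ hWo hpW
  obtain ⟨H, h3, h4⟩ := hM.exists_homeo (hWo.union ho.connectedComponentIn)
    (hWc.isPreconnected.union w hw1 hw2 isPreconnected_connectedComponentIn) (Or.inl hg1)
    (Or.inr (mem_connectedComponentIn (F := (closure U)ᶜ) hd))
  exact ⟨H, ⟨g, hg2, h3⟩, fun z hz hz' => h4 z fun h5 =>
    h5.elim (fun h6 => hz' (hWO h6)) fun h6 => disjoint_left.1 (acc_disj d) h6 hz⟩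

/-- One step of the construction. -/
theorem acc_step (hM : IsMfd n M) (hU : IsOpen U) {d p : ℕ → M} (hd : DenseRange d)
    (hp : ∀ k, d k ∉ closure U → p k ∈ frontier (connectedComponentIn (closure U)ᶜ (d k)))
    (A : ℕ → Set M) (hA : ∀ k, A k ∈ 𝓝 (p k)) {B : Set M} (hB : IsOpen B) (hne : B.Nonempty)
    (s : {s : (M ≃ₜ M) × Set M // s.2.Finite ∧ s.2 ⊆ U}) :
    ∃ s' : {s : (M ≃ₜ M) × Set M // s.2.Finite ∧ s.2 ⊆ U}, s.1.2 ⊆ s'.1.2 ∧
      (∃ x ∈ s'.1.2, s'.1.1 x ∈ B) ∧ (∀ z ∈ s.1.2, s'.1.1 z = s.1.1 z) ∧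
      ((∀ z, s'.1.1 z = s.1.1 z) ∨
        ∃ k, d k ∉ closure U ∧ ∀ z ∈ U, z ∉ A k → s'.1.1 z = s.1.1 z) := by
  have := hM.1
  obtain ⟨⟨H, F⟩, hF, hFU⟩ := s
  by_cases h : (H ⁻¹' B ∩ U).Nonempty
  · obtain ⟨x, hx, hxU⟩ := h
    exact ⟨⟨(H, insert x F), hF.insert x, insert_subset hxU hFU⟩, subset_insert _ _,
      ⟨x, mem_insert _ _, hx⟩, fun _ _ => rfl, Or.inl fun _ => rfl⟩
  obtain ⟨k, hk⟩ := hd.exists_mem_open (hB.preimage H.continuous) (hne.preimage H.surjective)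
  have hk' : d k ∉ closure U := fun hc =>
    h (mem_closure_iff.1 hc _ (hB.preimage H.continuous) hk)
  obtain ⟨h, ⟨g, hg, hg'⟩, hh⟩ := acc_push hM hU hk' (hp k hk') (inter_mem (hA k)
    (hF.isClosed.isOpen_compl.mem_nhds fun hc => (acc_front hM hU hk' (hp k hk')).2 (hFU hc)))
  refine ⟨⟨(h.trans H, insert g F), hF.insert g, insert_subset hg hFU⟩, subset_insert _ _,
    ⟨g, mem_insert _ _, ?_⟩, fun z hz => ?_, Or.inr ⟨k, hk', fun z hz hz' => ?_⟩⟩
  · show H (h g) ∈ B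
    rw [hg']
    exact hk
  · show H (h z) = H z
    rw [hh z (hFU hz) fun hc => hc.2 hz]
  · show H (h z) = H z
    rw [hh z hz fun hc => hz' hc.1]

theorem acc_main (hM : IsMfd n M) (hU : IsOpen U) (hne : U.Nonempty) (P : Set M)
    (hP : ∀ d ∉ closure U, (P ∩ frontier (connectedComponentIn (closure U)ᶜ d)).Nonempty)
    {ι : Type} (hι : Dominated ι) (O : ι → Set M) (hO : ∀ i, IsOpen (O i))
    (hc : U ⊆ ⋃ i, O i) (hf : ∀ i, (closure (O i) ∩ P).Finite) : DenseCopy U := by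
  have := hM.1
  have := hM.2.2.1
  have : Nonempty M := ⟨hne.some⟩
  obtain ⟨B, hB⟩ := acc_basis hM
  let d := TopologicalSpace.denseSeq M
  have hd : DenseRange d := TopologicalSpace.denseRange_denseSeq M
  choose! p hpP hp using fun k (hk : d k ∉ closure U) => hP (d k) hk
  have hF : ∀ i k, ∃ m, p k ∉ closure (O i) → B (p k) m ⊆ (closure (O i))ᶜ := fun i k => by
    by_cases h : p k ∈ closure (O i)
    · exact ⟨0, fun h' => absurd h h'⟩
    · exact (((hB (p k)).eventually_subset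
        (isClosed_closure.isOpen_compl.mem_nhds h)).exists).imp fun _ hm _ => hm
  choose F hF using hF
  obtain ⟨g, hg⟩ := hι F
  choose nx h1 h2 h3 h4 using fun t : ℕ => acc_step hM hU hd hp
    (fun k => B (p k) (max (g k) t)) (fun k => (hB _).mem _)
    (B := interior (B (d t.unpair.1) t.unpair.2)) isOpen_interior
    ⟨_, mem_interior_iff_mem_nhds.2 ((hB _).mem _)⟩
  let T : ℕ → {s : (M ≃ₜ M) × Set M // s.2.Finite ∧ s.2 ⊆ U} := fun t =>
    Nat.rec ⟨(Homeomorph.refl M, ∅), finite_empty, empty_subset _⟩ (fun t s => nx t s) t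
  have hT : ∀ t, T (t + 1) = nx t (T t) := fun _ => rfl
  obtain ⟨e, he, he'⟩ := exists_limit (U := U) (fun t => (T t).1.1) (fun x hx => by
    obtain ⟨i, hi⟩ := mem_iUnion.1 (hc hx)
    have hfin : {k | ¬ F i k ≤ g k}.Finite := by
      have := hg i
      rwa [← Nat.cofinite_eq_atTop, eventually_cofinite] at this
    have hQ : (((closure (O i) ∩ P) ∪ p '' {k | ¬ F i k ≤ g k}) \ U).Finite :=
      ((hf i).union (hfin.image p)).subset sdiff_subset
    have hev : ∀ᶠ y in 𝓝 x ×ˢ (atTop : Filter ℕ),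
        ∀ q ∈ ((closure (O i) ∩ P) ∪ p '' {k | ¬ F i k ≤ g k}) \ U, y.1 ∉ B q y.2 := by
      refine (eventually_all_finite hQ).2 fun q hq => ?_
      obtain ⟨u, v, hu, hv, huv⟩ := t2_separation_nhds (x := x) (y := q)
        fun h => hq.2 (h ▸ hx)
      filter_upwards [prod_mem_prod hu ((hB q).eventually_subset hv)] with y hy hy'
      exact disjoint_left.1 huv hy.1 (hy.2 hy')
    obtain ⟨pa, ha, pb, hb, hab⟩ := eventually_prod_iff.1 hev
    refine ⟨{z | pa z} ∩ (U ∩ O i), inter_mem ha ((hU.inter (hO i)).mem_nhds ⟨hx, hi⟩), ?_⟩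
    filter_upwards [hb] with t ht z hz
    rw [hT]
    rcases h4 t (T t) with h | ⟨k, hk, h⟩
    · exact h z
    · refine h z hz.2.1 fun hz' => ?_
      by_cases hk' : p k ∈ (closure (O i) ∩ P) ∪ p '' {k | ¬ F i k ≤ g k}
      · exact hab hz.1 ht (p k) ⟨hk', (acc_front hM hU hk (hp k hk)).2⟩
          ((hB _).antitone (le_max_right _ _) hz')
      · have h5 : F i k ≤ g k := by
          by_contra h5
          exact hk' (Or.inr ⟨k, h5, rfl⟩)
        exact hF i k (fun h6 => hk' (Or.inl ⟨h6, hpP k hk⟩))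
          ((hB _).antitone (h5.trans (le_max_left _ _)) hz') (subset_closure hz.2.2)) hU
  refine ⟨range e, he.isOpen_range, ?_, ⟨he.isEmbedding.toHomeomorph⟩⟩
  refine dense_closure.1 (hd.mono ?_)
  rintro _ ⟨k, rfl⟩
  refine (mem_closure_iff_nhds_basis (hB (d k)).1).2 fun m _ => ?_
  obtain ⟨x, hx, hx'⟩ := h2 (Nat.pair k m) (T (Nat.pair k m))
  rw [Nat.unpair_pair, ← hT] at hx'
  rw [← hT] at hx
  have h5 : ∀ j ≥ Nat.pair k m + 1, x ∈ (T j).1.2 ∧
      (T j).1.1 x = (T (Nat.pair k m + 1)).1.1 x := by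
    intro j hj
    induction j, hj using Nat.le_induction with
    | base => exact ⟨hx, rfl⟩
    | succ j hj ih => exact ⟨h1 j (T j) ih.1, (h3 j (T j) x ih.1).trans ih.2⟩
  have hxU : x ∈ U := (T (Nat.pair k m + 1)).2.2 hx
  obtain ⟨j, h6, h7⟩ := ((he' ⟨x, hxU⟩).and (eventually_ge_atTop (Nat.pair k m + 1))).exists
  refine ⟨_, ⟨⟨x, hxU⟩, rfl⟩, interior_subset ?_⟩
  rw [← h6]
  exact (h5 j h7).2 ▸ hx'

end Pool.Agent.FS.Access034
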